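import Mathlib

set_option autoImplicit false

/-!
# A nearly unconditional basis that is not truncation quasi-greedy

Block `m` has coordinates `(j, k)` with `j ≤ m`, `k < 4^j`; put `f_m = ∑_j 2^{-j} 1_{level j}`.
The space is the `ℓ₁`-sum over `m` of the spaces whose unit ball is the absolutely convex hull of the
unit vectors and of `f_m`, realised as a quotient of `ℓ₁ × ℓ₁`.
-/

namespace Pool.Agent.L0h84.NU

open scoped ENNReal

/-- coordinates of block `m` -/
abbrev J (m : ℕ) : Type := Σ j : Fin (m + 1), Fin (4 ^ (j : ℕ))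

/-- all coordinates -/
abbrev I : Type := Σ m : ℕ, J m

/-- the weight `2^{-j}` -/
noncomputable def c (i : I) : ℝ := (1 / 2 : ℝ) ^ (i.2.1 : ℕ)

lemma c_pos (i : I) : 0 < c i := by unfold c; positivity

lemma c_le (i : I) : c i ≤ 1 := by
  unfold c; exact pow_le_one₀ (by norm_num) (by norm_num)

abbrev E : Type := lp (fun _ : I => ℝ) 1
abbrev F : Type := lp (fun _ : ℕ => ℝ) 1

/-- coordinate functional on `E × F` -/
noncomputable def T (i : I) : (E × F) →ₗ[ℝ] ℝ where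
  toFun p := p.1 i + p.2 i.1 * c i
  map_add' p q := by simp; ring
  map_smul' r p := by simp; ring

lemma T_apply (i : I) (p : E × F) : T i p = p.1 i + p.2 i.1 * c i := rfl

lemma abs_T_le (i : I) (p : E × F) : |T i p| ≤ 2 * ‖p‖ := by
  have h1 : |p.1 i| ≤ ‖p‖ := by
    refine le_trans ?_ (norm_fst_le p)
    have := lp.norm_apply_le_norm (p := 1) (by norm_num) p.1 i
    simpa using this
  have h2 : |p.2 i.1| ≤ ‖p‖ := by
    refine le_trans ?_ (norm_snd_le p)
    have := lp.norm_apply_le_norm (p := 1) (by norm_num) p.2 i.1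
    simpa using this
  rw [T_apply]
  have h3 : |p.2 i.1 * c i| ≤ ‖p‖ := by
    rw [abs_mul, abs_of_pos (c_pos i)]
    calc |p.2 i.1| * c i ≤ |p.2 i.1| * 1 := mul_le_mul_of_nonneg_left (c_le i) (abs_nonneg _)
      _ ≤ ‖p‖ := by simpa using h2
  calc _ ≤ |p.1 i| + |p.2 i.1 * c i| := abs_add_le _ _
    _ ≤ 2 * ‖p‖ := by linarith

noncomputable def K : Submodule ℝ (E × F) := ⨅ i, LinearMap.ker (T i)

lemma mem_K {p : E × F} : p ∈ K ↔ ∀ i, T i p = 0 := by
  simp [K, Submodule.mem_iInf]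

lemma T_cont (i : I) : Continuous (T i) := by
  refine AddMonoidHomClass.continuous_of_bound (T i) 2 (fun p => ?_)
  simpa using abs_T_le i p

instance : IsClosed (K : Set (E × F)) := by
  have : (K : Set (E × F)) = ⋂ i, {p | T i p = 0} := by
    ext p; simp [mem_K]
  rw [this]
  exact isClosed_iInter fun i => isClosed_eq (T_cont i) continuous_const

abbrev X : Type := (E × F) ⧸ K

noncomputable def mk (p : E × F) : X := Submodule.Quotient.mk p

noncomputable def xs (i : I) : X →ₗ[ℝ] ℝ :=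
  K.liftQ (T i) (fun _ hp => by simpa using mem_K.1 hp i)

lemma xs_mk (i : I) (p : E × F) : xs i (mk p) = T i p := by
  simp [xs, mk]

noncomputable def x (i : I) : X := mk (lp.single 1 i (1 : ℝ), 0)

lemma norm_mk_le (p : E × F) : ‖mk p‖ ≤ ‖p‖ := Submodule.Quotient.norm_mk_le K p

lemma exists_rep (f : X) {ε : ℝ} (hε : 0 < ε) : ∃ p : E × F, mk p = f ∧ ‖p‖ < ‖f‖ + ε :=
  Submodule.Quotient.norm_mk_lt f hε

lemma norm_x_le (i : I) : ‖x i‖ ≤ 1 := by
  refine (norm_mk_le _).trans ?_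
  rw [Prod.norm_def]
  simp [lp.norm_single]

lemma xs_x (i k : I) : xs i (x k) = if i = k then 1 else 0 := by
  rw [x, xs_mk, T_apply]
  simp only [lp.coeFn_zero, Pi.zero_apply, zero_mul, add_zero]
  rw [lp.single_apply]
  by_cases h : i = k
  · subst h; simp
  · simp [h]

lemma xs_bound (i : I) (f : X) : |xs i f| ≤ 2 * ‖f‖ := by
  refine le_of_forall_pos_le_add fun ε hε => ?_
  obtain ⟨p, rfl, hp⟩ := exists_rep f (half_pos hε)
  rw [xs_mk]
  have := abs_T_le i p
  linarith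


/-! ### Blocks -/

/-- the embedding of block `m` into the set of all coordinates -/
def emb (m : ℕ) : J m ↪ I := ⟨fun b => ⟨m, b⟩, fun a b h => by simpa using h⟩

/-- block `m` as a finite set of coordinates -/
def B (m : ℕ) : Finset I := Finset.univ.map (emb m)

lemma mem_B {m : ℕ} {i : I} : i ∈ B m ↔ i.1 = m := by
  constructor
  · intro h
    obtain ⟨b, -, rfl⟩ := Finset.mem_map.1 h
    rfl
  · rintro rfl
    exact Finset.mem_map.2 ⟨i.2, Finset.mem_univ _, rfl⟩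

lemma sum_B (m : ℕ) (h : ℕ → ℝ) :
    ∑ i ∈ B m, h (i.2.1 : ℕ) = ∑ j ∈ Finset.range (m + 1), 4 ^ j * h j := by
  rw [B, Finset.sum_map, Fintype.sum_sigma, Finset.sum_range (fun j => (4:ℝ) ^ j * h j)]
  refine Finset.sum_congr rfl fun j _ => ?_
  have : ∀ y : Fin (4 ^ (j : ℕ)), h (((emb m) ⟨j, y⟩).2.1 : ℕ) = h (j : ℕ) := fun y => rfl
  rw [Finset.sum_congr rfl fun y _ => this y, Finset.sum_const, Finset.card_univ, Fintype.card_fin,
    nsmul_eq_mul, Nat.cast_pow, Nat.cast_ofNat]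

lemma sum_two_pow (n : ℕ) : ∑ j ∈ Finset.range (n + 1), (2:ℝ) ^ j = 2 ^ (n + 1) - 1 := by
  rw [geom_sum_eq (by norm_num)]; norm_num

/-- The key inequality, on one block. -/
lemma block_ineq {a : ℝ} (ha : 0 < a) (ha1 : a ≤ 1) (m : ℕ) (f g : I → ℝ) (t : ℝ)
    (hfg : ∀ i ∈ B m, f i = g i + t * c i) (hf : ∀ i ∈ B m, |f i| ≤ 1)
    (A : Finset I) (hA : A ⊆ B m) (hAa : ∀ i ∈ A, a ≤ |f i|) :
    ∑ i ∈ A, |f i| ≤ 35 / a * (∑ i ∈ B m, |g i|) + 16 / a * |t| := by
  have hs : ∀ i, |t * c i| = |t| * c i := fun i => by rw [abs_mul, abs_of_pos (c_pos i)]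
  have hG0 : 0 ≤ ∑ i ∈ B m, |g i| := Finset.sum_nonneg fun _ _ => abs_nonneg _
  have hinv : 1 ≤ 1 / a := by rw [le_div_iff₀ ha]; linarith
  set P : Finset I := A.filter (fun i => a / 2 < |t| * c i ∧ |t| * c i < 2) with hP
  -- pointwise estimate
  have hpt : ∀ i ∈ A, |f i| ≤ 3 * |g i| + (if a / 2 < |t| * c i ∧ |t| * c i < 2 then |t| * c i else 0) := by
    intro i hi
    have h1 := hfg i (hA hi)
    have h2 : |f i| ≤ |g i| + |t| * c i := by rw [h1, ← hs i]; exact abs_add_le _ _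
    have h3 : |t| * c i ≤ |g i| + |f i| := by
      rw [← hs i]
      have : t * c i = f i - g i := by linarith
      rw [this]
      have := abs_sub (f i) (g i)
      linarith
    have h4 := hf i (hA hi)
    have h5 := hAa i hi
    have h6 : 0 ≤ |g i| := abs_nonneg _
    split_ifs with hc
    · linarith
    · by_cases hc1 : a / 2 < |t| * c i
      · have hc2 : 2 ≤ |t| * c i := by
          by_contra hcon
          exact hc ⟨hc1, not_le.1 hcon⟩
        linarith
      · have hc2 := not_lt.1 hc1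
        linarith
  have hsum : ∑ i ∈ A, |f i| ≤ 3 * ∑ i ∈ B m, |g i| + ∑ i ∈ P, |t| * c i := by
    calc ∑ i ∈ A, |f i| ≤ ∑ i ∈ A, (3 * |g i| + (if a / 2 < |t| * c i ∧ |t| * c i < 2 then |t| * c i else 0)) :=
          Finset.sum_le_sum hpt
      _ = 3 * ∑ i ∈ A, |g i| + ∑ i ∈ P, |t| * c i := by
          rw [Finset.sum_add_distrib, ← Finset.mul_sum, hP, Finset.sum_filter]
      _ ≤ 3 * ∑ i ∈ B m, |g i| + ∑ i ∈ P, |t| * c i := by
          have := Finset.sum_le_sum_of_subset_of_nonneg hA (fun i _ _ => abs_nonneg (g i))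
          linarith
  by_cases hPe : P = ∅
  · rw [hPe, Finset.sum_empty] at hsum
    have h1 : 3 * ∑ i ∈ B m, |g i| ≤ 35 / a * (∑ i ∈ B m, |g i|) := by
      apply mul_le_mul_of_nonneg_right _ hG0
      rw [le_div_iff₀ ha]; linarith
    have h2 : 0 ≤ 16 / a * |t| := by positivity
    linarith
  obtain ⟨i₁, hi₁⟩ := Finset.nonempty_iff_ne_empty.2 hPe
  obtain ⟨hi₁A, hi₁a, hi₁b⟩ := Finset.mem_filter.1 hi₁
  have ht : 0 < |t| := by
    by_contra hcon
    have h0 : |t| = 0 := le_antisymm (not_lt.1 hcon) (abs_nonneg _)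
    rw [h0, zero_mul] at hi₁a
    linarith
  -- bound for the middle sum
  have hmid : ∑ i ∈ P, |t| * c i ≤ 4 * t ^ 2 / a := by
    obtain ⟨n, hn1, hn2⟩ := exists_nat_pow_near (x := 2 * |t| / a) (y := (2:ℝ)) (by
      rw [le_div_iff₀ ha]
      have := c_le i₁
      have h7 : |t| * c i₁ ≤ |t| := by nlinarith [c_pos i₁]
      linarith) (by norm_num)
    have hlev : ∀ i ∈ P, (i.2.1 : ℕ) ∈ Finset.range (n + 1) := by
      intro i hi
      obtain ⟨_, h1, _⟩ := Finset.mem_filter.1 hi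
      rw [Finset.mem_range]
      have h2 : (2:ℝ) ^ (i.2.1 : ℕ) < 2 ^ (n + 1) := by
        refine lt_trans ?_ hn2
        rw [lt_div_iff₀ ha]
        have h3 : c i * 2 ^ (i.2.1 : ℕ) = 1 := by
          unfold c; rw [← mul_pow]; norm_num
        have h4 : (0:ℝ) < 2 ^ (i.2.1 : ℕ) := by positivity
        have h5 : a / 2 * 2 ^ (i.2.1 : ℕ) < |t| * c i * 2 ^ (i.2.1 : ℕ) := mul_lt_mul_of_pos_right h1 h4
        rw [mul_assoc, h3] at h5
        linarith
      exact (pow_lt_pow_iff_right₀ (by norm_num : (1:ℝ) < 2)).1 h2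
    have hsub : ∑ i ∈ P, |t| * c i ≤
        ∑ i ∈ B m, (if (i.2.1 : ℕ) ∈ Finset.range (n + 1) then |t| * c i else 0) := by
      calc ∑ i ∈ P, |t| * c i = ∑ i ∈ P, (if (i.2.1 : ℕ) ∈ Finset.range (n + 1) then |t| * c i else 0) :=
            Finset.sum_congr rfl fun i hi => by rw [if_pos (hlev i hi)]
        _ ≤ _ := Finset.sum_le_sum_of_subset_of_nonneg ((Finset.filter_subset _ _).trans hA)
            (fun i _ _ => by split_ifs; exact mul_nonneg (abs_nonneg _) (c_pos i).le; exact le_rfl)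
    have hB := sum_B m (fun j => if j ∈ Finset.range (n + 1) then |t| * (1 / 2 : ℝ) ^ j else 0)
    have hB' : ∑ i ∈ B m, (if (i.2.1 : ℕ) ∈ Finset.range (n + 1) then |t| * c i else 0) =
        ∑ j ∈ Finset.range (m + 1), 4 ^ j * (if j ∈ Finset.range (n + 1) then |t| * (1 / 2 : ℝ) ^ j else 0) := by
      rw [← hB]; rfl
    rw [hB'] at hsub
    have hle : ∑ j ∈ Finset.range (m + 1), (4:ℝ) ^ j * (if j ∈ Finset.range (n + 1) then |t| * (1 / 2 : ℝ) ^ j else 0)
        ≤ ∑ j ∈ Finset.range (n + 1), |t| * 2 ^ j := by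
      calc _ = ∑ j ∈ Finset.range (m + 1), (if j ∈ Finset.range (n + 1) then |t| * (2 : ℝ) ^ j else 0) := by
            refine Finset.sum_congr rfl fun j _ => ?_
            split_ifs
            · have : (4:ℝ) ^ j * (|t| * (1 / 2) ^ j) = |t| * ((4:ℝ) ^ j * (1 / 2) ^ j) := by ring
              rw [this, ← mul_pow]; norm_num
            · ring
        _ = ∑ j ∈ (Finset.range (m + 1)).filter (· ∈ Finset.range (n + 1)), |t| * 2 ^ j := by
            rw [Finset.sum_filter]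
        _ ≤ _ := by
            refine Finset.sum_le_sum_of_subset_of_nonneg ?_ (fun _ _ _ => by positivity)
            intro j hj
            exact (Finset.mem_filter.1 hj).2
    rw [← Finset.mul_sum, sum_two_pow] at hle
    have h8 : |t| * (2 ^ (n + 1) - 1) ≤ |t| * (2 * (2 * |t| / a)) := by
      apply mul_le_mul_of_nonneg_left _ (abs_nonneg _)
      rw [pow_succ]; linarith
    have h9 : |t| * (2 * (2 * |t| / a)) = 4 * t ^ 2 / a := by
      rw [← sq_abs t]; ring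
    linarith
  by_cases ht4 : |t| < 4
  · have h1 : 4 * t ^ 2 / a ≤ 16 / a * |t| := by
      rw [← sq_abs t]
      have : 16 / a * |t| - 4 * |t| ^ 2 / a = 4 * |t| * (4 - |t|) / a := by ring
      have h2 : 0 ≤ 4 * |t| * (4 - |t|) / a := by
        apply div_nonneg _ ha.le
        apply mul_nonneg (by positivity) (by linarith)
      linarith
    have h2 : 3 * ∑ i ∈ B m, |g i| ≤ 35 / a * (∑ i ∈ B m, |g i|) := by
      apply mul_le_mul_of_nonneg_right _ hG0
      rw [le_div_iff₀ ha]; linarith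
    linarith
  · have ht4' := not_lt.1 ht4
    obtain ⟨n, hn1, hn2⟩ := exists_nat_pow_near (x := |t| / 2) (y := (2:ℝ)) (by linarith) (by norm_num)
    have h3 : ∀ i : I, c i * 2 ^ (i.2.1 : ℕ) = 1 := fun i => by
      unfold c; rw [← mul_pow]; norm_num
    -- n ≤ m
    have hnm : n < m + 1 := by
      have h1 : (2:ℝ) ^ n < 2 ^ (m + 1) := by
        have h4 : (0:ℝ) < 2 ^ (i₁.2.1 : ℕ) := by positivity
        have h5 : |t| * c i₁ * 2 ^ (i₁.2.1 : ℕ) < 2 * 2 ^ (i₁.2.1 : ℕ) := mul_lt_mul_of_pos_right hi₁b h4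
        rw [mul_assoc, h3] at h5
        have h6 : (i₁.2.1 : ℕ) ≤ m := by
          have h7 := i₁.2.1.2
          have h8 := mem_B.1 (hA hi₁A)
          omega
        have h7 : (2:ℝ) ^ (i₁.2.1 : ℕ) ≤ 2 ^ m := pow_le_pow_right₀ (by norm_num) h6
        have h8 : (2:ℝ) ^ (m + 1) = 2 * 2 ^ m := by ring
        have h9 : (0:ℝ) < 2 ^ m := by positivity
        linarith
      exact (pow_lt_pow_iff_right₀ (by norm_num : (1:ℝ) < 2)).1 h1
    -- level n of block m
    have hG : t ^ 2 / 8 ≤ ∑ i ∈ B m, |g i| := by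
      have h5 : ∑ i ∈ B m, (if (i.2.1 : ℕ) = n then |t| * (1 / 2 : ℝ) ^ n / 2 else 0) ≤ ∑ i ∈ B m, |g i| := by
        refine Finset.sum_le_sum fun i hi => ?_
        split_ifs with hc
        · have h1 := hfg i hi
          have h4 := hf i hi
          have h6 : |t| * c i ≤ |g i| + |f i| := by
            rw [← hs i]
            have : t * c i = f i - g i := by linarith
            rw [this]
            have := abs_sub (f i) (g i)
            linarith
          have h7 : c i = (1 / 2 : ℝ) ^ n := by unfold c; rw [hc]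
          rw [h7] at h6
          have h8 : 2 ≤ |t| * (1 / 2 : ℝ) ^ n := by
            have h9 : (0:ℝ) < (1 / 2) ^ n := by positivity
            have h10 : (2:ℝ) ^ n * (1 / 2) ^ n = 1 := by rw [← mul_pow]; norm_num
            have h11 : (2:ℝ) ^ n * (1 / 2) ^ n ≤ |t| / 2 * (1 / 2) ^ n := mul_le_mul_of_nonneg_right hn1 h9.le
            rw [h10] at h11
            linarith
          linarith
        · exact abs_nonneg _
      rw [sum_B m (fun j => if j = n then |t| * (1 / 2 : ℝ) ^ n / 2 else 0)] at h5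
      rw [Finset.sum_eq_single n] at h5
      · rw [if_pos rfl] at h5
        have h10 : (4:ℝ) ^ n * (1 / 2) ^ n = 2 ^ n := by rw [← mul_pow]; norm_num
        have h11 : (4:ℝ) ^ n * (|t| * (1 / 2) ^ n / 2) = |t| * 2 ^ n / 2 := by
          rw [← h10]; ring
        rw [h11] at h5
        have h12 : |t| / 4 ≤ 2 ^ n := by
          rw [pow_succ] at hn2; linarith
        have h13 : |t| * (|t| / 4) / 2 ≤ |t| * 2 ^ n / 2 := by
          have := mul_le_mul_of_nonneg_left h12 (abs_nonneg t)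
          linarith
        have h14 : |t| * (|t| / 4) / 2 = t ^ 2 / 8 := by rw [← sq_abs t]; ring
        linarith
      · intro j _ hj
        rw [if_neg hj, mul_zero]
      · intro h
        exact absurd (Finset.mem_range.2 hnm) h
    have h6 : 4 * t ^ 2 / a ≤ 32 / a * ∑ i ∈ B m, |g i| := by
      have : 4 * t ^ 2 / a = 32 / a * (t ^ 2 / 8) := by ring
      rw [this]
      exact mul_le_mul_of_nonneg_left hG (by positivity)
    have h7 : 3 * ∑ i ∈ B m, |g i| ≤ 3 / a * ∑ i ∈ B m, |g i| := by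
      apply mul_le_mul_of_nonneg_right _ hG0
      rw [le_div_iff₀ ha]; linarith
    have h8 : 35 / a * ∑ i ∈ B m, |g i| = 3 / a * ∑ i ∈ B m, |g i| + 32 / a * ∑ i ∈ B m, |g i| := by ring
    have h9 : 0 ≤ 16 / a * |t| := by positivity
    linarith


/-! ### Near unconditionality -/

lemma sum_abs_le_norm {ι : Type} (g : lp (fun _ : ι => ℝ) 1) (s : Finset ι) :
    ∑ i ∈ s, |g i| ≤ ‖g‖ := by
  have h := lp.sum_rpow_le_norm_rpow (p := 1) (by norm_num) g s
  simpa using h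

lemma rep_sum (p : E × F) (A : Finset I) :
    ‖∑ i ∈ A, xs i (mk p) • x i‖ ≤ ∑ i ∈ A, |T i p| := by
  refine (norm_sum_le _ _).trans (Finset.sum_le_sum fun i _ => ?_)
  rw [norm_smul, xs_mk, Real.norm_eq_abs]
  calc |T i p| * ‖x i‖ ≤ |T i p| * 1 := mul_le_mul_of_nonneg_left (norm_x_le i) (abs_nonneg _)
    _ = _ := mul_one _

/-- near unconditionality, for representatives -/
lemma near_rep {a : ℝ} (ha : 0 < a) (ha1 : a ≤ 1) (p : E × F) (hp : ∀ i, |T i p| ≤ 1)
    (A : Finset I) (hA : ∀ i ∈ A, a ≤ |T i p|) :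
    ∑ i ∈ A, |T i p| ≤ 51 / a * ‖p‖ := by
  classical
  set M : Finset ℕ := A.image (fun i => i.1) with hM
  have h1 : ∑ i ∈ A, |T i p| = ∑ m ∈ M, ∑ i ∈ A.filter (fun i => i.1 = m), |T i p| :=
    (Finset.sum_fiberwise_of_maps_to (fun i hi => Finset.mem_image_of_mem _ hi) _).symm
  have h2 : ∀ m ∈ M, ∑ i ∈ A.filter (fun i => i.1 = m), |T i p| ≤
      35 / a * (∑ i ∈ B m, |p.1 i|) + 16 / a * |p.2 m| := by
    intro m _
    refine block_ineq ha ha1 m (fun i => T i p) (fun i => p.1 i) (p.2 m) ?_ ?_ _ ?_ ?_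
    · intro i hi
      rw [T_apply, mem_B.1 hi]
    · intro i _; exact hp i
    · intro i hi
      exact mem_B.2 (Finset.mem_filter.1 hi).2
    · intro i hi
      exact hA i (Finset.mem_filter.1 hi).1
  have h3 : ∑ m ∈ M, ∑ i ∈ B m, |p.1 i| ≤ ‖p.1‖ := by
    rw [← Finset.sum_biUnion]
    · exact sum_abs_le_norm _ _
    · intro m _ m' _ hne
      rw [Function.onFun, Finset.disjoint_left]
      intro i h4 h5
      exact hne ((mem_B.1 h4).symm.trans (mem_B.1 h5))
  have h4 : ∑ m ∈ M, |p.2 m| ≤ ‖p.2‖ := sum_abs_le_norm _ _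
  rw [h1]
  calc _ ≤ ∑ m ∈ M, (35 / a * (∑ i ∈ B m, |p.1 i|) + 16 / a * |p.2 m|) := Finset.sum_le_sum h2
    _ = 35 / a * ∑ m ∈ M, ∑ i ∈ B m, |p.1 i| + 16 / a * ∑ m ∈ M, |p.2 m| := by
        rw [Finset.sum_add_distrib, ← Finset.mul_sum, ← Finset.mul_sum]
    _ ≤ 35 / a * ‖p‖ + 16 / a * ‖p‖ := by
        gcongr
        · exact h3.trans (norm_fst_le p)
        · exact h4.trans (norm_snd_le p)
    _ = _ := by ring

lemma near_uncond {a : ℝ} (ha : 0 < a) (ha1 : a ≤ 1) (f : X) (hf : ∀ i, |xs i f| ≤ 1)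
    (A : Finset I) (hA : ∀ i ∈ A, a ≤ |xs i f|) :
    ‖∑ i ∈ A, xs i f • x i‖ ≤ 51 / a * ‖f‖ := by
  have ha' : 0 < 51 / a := by positivity
  refine le_of_forall_pos_le_add fun ε hε => ?_
  obtain ⟨p, rfl, hp⟩ := exists_rep f (div_pos hε ha')
  refine (rep_sum p A).trans ?_
  refine (near_rep ha ha1 p (fun i => by rw [← xs_mk]; exact hf i) A
    (fun i hi => by rw [← xs_mk]; exact hA i hi)).trans ?_
  have := mul_le_mul_of_nonneg_left hp.le ha'.le
  calc _ ≤ 51 / a * (‖mk p‖ + ε / (51 / a)) := this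
    _ = _ := by field_simp

/-! ### Density -/

/-- the vector `f_m`, as an element of `E` -/
noncomputable def fv (m : ℕ) : E := ∑ i ∈ B m, c i • lp.single 1 i (1 : ℝ)

lemma sum_single_apply (s : Finset I) (h : I → ℝ) (i : I) :
    ((∑ k ∈ s, h k • lp.single 1 k (1 : ℝ) : E) : I → ℝ) i = if i ∈ s then h i else 0 := by
  rw [lp.coeFn_sum, Finset.sum_apply]
  simp only [lp.coeFn_smul, Pi.smul_apply, smul_eq_mul, lp.single_apply]
  by_cases hi : i ∈ s
  · rw [if_pos hi, Finset.sum_eq_single i]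
    · simp
    · intro k _ hk
      simp [Ne.symm hk]
    · intro h; exact absurd hi h
  · rw [if_neg hi]
    refine Finset.sum_eq_zero fun k hk => ?_
    have : i ≠ k := fun h => hi (h ▸ hk)
    simp [this]

lemma fv_apply (m : ℕ) (i : I) : (fv m : I → ℝ) i = if i.1 = m then c i else 0 := by
  rw [fv, sum_single_apply]
  simp only [mem_B]

lemma mk_single (m : ℕ) : mk (0, lp.single 1 m (1 : ℝ)) = mk (fv m, 0) := by
  unfold mk
  rw [Submodule.Quotient.eq, mem_K]
  intro i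
  rw [T_apply]
  simp only [Prod.mk_sub_mk, zero_sub, sub_zero, lp.coeFn_neg, Pi.neg_apply, fv_apply, lp.single_apply,
    Pi.single_apply]
  by_cases h : i.1 = m
  · simp [h]
  · simp [h]

/-- `mk` as a linear map -/
noncomputable def mkL : (E × F) →ₗ[ℝ] X := K.mkQ

lemma mkL_apply (p : E × F) : mkL p = mk p := rfl

lemma mk_fin_mem (s : Finset I) (h : I → ℝ) :
    mk (∑ k ∈ s, h k • lp.single 1 k (1 : ℝ), 0) ∈ Submodule.span ℝ (Set.range x) := by
  have : ((∑ k ∈ s, h k • lp.single 1 k (1 : ℝ), 0) : E × F) =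
      ∑ k ∈ s, h k • ((lp.single 1 k (1 : ℝ), 0) : E × F) := by
    ext1
    · rw [Prod.fst_sum]; rfl
    · rw [Prod.snd_sum]
      simp
  rw [this, ← mkL_apply, map_sum]
  refine Submodule.sum_mem _ fun k _ => ?_
  rw [map_smul]
  exact Submodule.smul_mem _ _ (Submodule.subset_span ⟨k, rfl⟩)

lemma lp_approx {ι : Type} [DecidableEq ι] (g : lp (fun _ : ι => ℝ) 1) {ε : ℝ} (hε : 0 < ε) :
    ∃ s : Finset ι, ‖g - ∑ k ∈ s, g k • lp.single 1 k (1 : ℝ)‖ < ε := by
  have h := lp.hasSum_single (p := 1) (by norm_num) g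
  have h2 := (Metric.tendsto_nhds.1 h ε hε).exists
  obtain ⟨s, hs⟩ := h2
  refine ⟨s, ?_⟩
  rw [dist_comm, dist_eq_norm] at hs
  have h3 : ∀ k : ι, g k • lp.single 1 k (1 : ℝ) = (lp.single 1 k (g k) : lp (fun _ : ι => ℝ) 1) := by
    intro k
    rw [← lp.single_smul]
    simp
  rw [Finset.sum_congr rfl fun k _ => h3 k]
  exact hs

lemma mk_snd_mem (r : Finset ℕ) (h : ℕ → ℝ) :
    mk (0, ∑ k ∈ r, h k • lp.single 1 k (1 : ℝ)) ∈ Submodule.span ℝ (Set.range x) := by
  have : ((0, ∑ k ∈ r, h k • lp.single 1 k (1 : ℝ)) : E × F) =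
      ∑ k ∈ r, h k • ((0, lp.single 1 k (1 : ℝ)) : E × F) := by
    ext1
    · rw [Prod.fst_sum]; simp
    · rw [Prod.snd_sum]; rfl
  rw [this, ← mkL_apply, map_sum]
  refine Submodule.sum_mem _ fun k _ => ?_
  rw [map_smul]
  refine Submodule.smul_mem _ _ ?_
  rw [mkL_apply, mk_single]
  exact mk_fin_mem _ _

lemma norm_mk_sub_lt (p : E × F) (g : E) (t : F) {ε : ℝ} (hg : ‖p.1 - g‖ < ε) (ht : ‖p.2 - t‖ < ε) :
    ‖mk p - (mk (g, 0) + mk (0, t))‖ < ε := by
  have h1 : mk p - (mk (g, 0) + mk (0, t)) = mk (p.1 - g, p.2 - t) := by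
    rw [← mkL_apply, ← mkL_apply, ← mkL_apply, ← map_add, ← map_sub, ← mkL_apply]
    refine congrArg mkL ?_
    ext1
    · simp
    · simp
  rw [h1]
  refine lt_of_le_of_lt (norm_mk_le _) ?_
  rw [Prod.norm_def, max_lt_iff]
  exact ⟨hg, ht⟩

lemma dense_span (f : X) {ε : ℝ} (hε : 0 < ε) :
    ∃ g ∈ Submodule.span ℝ (Set.range x), ‖f - g‖ < ε := by
  obtain ⟨p, rfl, -⟩ := exists_rep f hε
  obtain ⟨s, hs⟩ := lp_approx p.1 hε
  obtain ⟨r, hr⟩ := lp_approx p.2 hε
  exact ⟨_, Submodule.add_mem _ (mk_fin_mem s p.1) (mk_snd_mem r p.2), norm_mk_sub_lt p _ _ hs hr⟩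

/-! ### Failure of truncation quasi-greediness -/

lemma norm_fv_le (m : ℕ) : ‖mk (fv m, 0)‖ ≤ 1 := by
  rw [← mk_single]
  refine (norm_mk_le _).trans ?_
  rw [Prod.norm_def]
  simp [lp.norm_single]

lemma xs_fv (m : ℕ) (i : I) : xs i (mk (fv m, 0)) = if i.1 = m then c i else 0 := by
  rw [xs_mk, T_apply, fv_apply]; simp

lemma sum_B_lower (m : ℕ) (t : ℝ) :
    (4:ℝ) ^ m ≤ ∑ i ∈ B (m + 1), |1 - t * c i| := by
  have h := sum_B (m + 1) (fun j => |1 - t * (1 / 2 : ℝ) ^ j|)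
  have h' : ∑ i ∈ B (m + 1), |1 - t * c i| = ∑ j ∈ Finset.range (m + 1 + 1), 4 ^ j * |1 - t * (1 / 2 : ℝ) ^ j| := by
    rw [← h]; rfl
  rw [h', Finset.sum_range_succ, Finset.sum_range_succ]
  have h0 : 0 ≤ ∑ j ∈ Finset.range m, (4:ℝ) ^ j * |1 - t * (1 / 2 : ℝ) ^ j| :=
    Finset.sum_nonneg fun j _ => by positivity
  set s : ℝ := t * (1 / 2 : ℝ) ^ (m + 1) with hs
  have h1 : t * (1 / 2 : ℝ) ^ m = 2 * s := by rw [hs]; ring
  rw [h1]
  have h2 : (4:ℝ) ^ (m + 1) = 4 * 4 ^ m := by ring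
  rw [h2]
  have h3 : 1 ≤ |1 - 2 * s| + 4 * |1 - s| := by
    have e1 : |1 - 2 * s| ≥ -(1 - 2 * s) := neg_le_abs _
    have e2 : |1 - 2 * s| ≥ 1 - 2 * s := le_abs_self _
    have e3 : |1 - s| ≥ 1 - s := le_abs_self _
    have e4 : |1 - s| ≥ -(1 - s) := neg_le_abs _
    rcases le_total s 1 with h | h
    · linarith
    · linarith
  have h4 : (0:ℝ) < 4 ^ m := by positivity
  nlinarith

lemma norm_one_lower (m : ℕ) : (4:ℝ) ^ m ≤ ‖∑ i ∈ B (m + 1), x i‖ := by
  refine le_of_forall_pos_le_add fun ε hε => ?_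
  obtain ⟨p, hp, hlt⟩ := exists_rep (∑ i ∈ B (m + 1), x i) hε
  have h1 : ∀ i ∈ B (m + 1), p.1 i = 1 - p.2 (m + 1) * c i := by
    intro i hi
    have h2 : xs i (mk p) = 1 := by
      rw [hp, map_sum, Finset.sum_eq_single i]
      · rw [xs_x, if_pos rfl]
      · intro k _ hk; rw [xs_x, if_neg (Ne.symm hk)]
      · intro h; exact absurd hi h
    rw [xs_mk, T_apply, mem_B.1 hi] at h2
    linarith
  have h3 : ∑ i ∈ B (m + 1), |p.1 i| ≤ ‖p‖ := (sum_abs_le_norm p.1 _).trans (norm_fst_le p)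
  rw [Finset.sum_congr rfl fun i hi => by rw [h1 i hi]] at h3
  have := sum_B_lower m (p.2 (m + 1))
  linarith

end Pool.Agent.L0h84.NU
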